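import Pool.Agent.H69.NL.Univ

set_option autoImplicit false

/-!
# Examples of exponents and sets of lengths
-/

namespace Pool.Agent.H69.NL

open Pool.Agent.H88.RO Pool.Agent.H88.RO.Tr Pool.Agent.H65.TS Pool.Agent.H65.NU
open Pool.Agent.H40.EL (lgT lgT_eq FP.lgT' lam lamT lamT_eq FP.lamT' log_log p2T p2T_spec FP.p2T')

variable {O : List Bool → Bool}

theorem slow_log : Slow O (fun n => Nat.log 2 n) where
  mono := fun _ _ h => Nat.log_mono_right h
  unbounded := fun k => ⟨2 ^ k, by rw [Nat.log_pow (by norm_num)]⟩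
  polyTime := by
    refine polyTimeFun_of_FP (F := fun v => onesPre (lgT v) leaf)
      (FP.onesPre' (FP.lgT' FP.id') FP.leaf') (fun x => ?_)
    rw [onesPre_leaf, lgT_eq, len_num, len_enc]
    rfl

theorem slow_log_log : Slow O (fun n => Nat.log 2 (Nat.log 2 n)) where
  mono := fun _ _ h => Nat.log_mono_right (Nat.log_mono_right h)
  unbounded := fun k => ⟨2 ^ 2 ^ k, by rw [log_log]⟩
  polyTime := by
    refine polyTimeFun_of_FP (F := fun v => onesPre (lgT (lgT v)) leaf)
      (FP.onesPre' (FP.lgT' (FP.lgT' FP.id')) FP.leaf') (fun x => ?_)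
    rw [onesPre_leaf, lgT_eq, lgT_eq, len_num, len_num, len_enc]
    rfl

theorem marks_all : Marks O (fun _ => true) where
  infinite := fun k => ⟨k, le_rfl, rfl⟩
  polyTime := polyTimeFun_of_FP (F := fun _ => enc [true]) (FP.const' _) (fun _ => rfl)

end Pool.Agent.H69.NL
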