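import Pool.Agent.H69.NL.PiHalf

set_option autoImplicit false

/-!
# If the universal set is in `Σ₂` then no problem is complete
-/

namespace Pool.Agent.H69.NL

open Pool.Agent.H88.RO Pool.Agent.H88.RO.Tr Pool.Agent.H65.TS Pool.Agent.H65.NU
open Pool.Agent.H40.EL (andT andT_spec FP.andT' lam lamT lamT_eq FP.lamT' sqT sqT_spec FP.sqT')

variable {O : List Bool → Bool}

/-- `w` refutes that the programs named by the numbers 1 and 2 of the key of `n`, with clock `N2`,
reduce the problem `Core` at the instance `Zst n` to `T` -/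
def Dat.Ref2 (D : Dat O) (n : ℕ) (w : List Bool) : Prop :=
  D.T.IsSol (run O (blk 1 (key D.d n)) (enc (Zst D.a n)) (N2 D.a n)) w ∧
    ¬ D.Core n (run O (blk 2 (key D.d n)) (node (enc (Zst D.a n)) (enc w)) (N2 D.a n))

/-- a program for `Ref2`, the witness is `1^N2 0 1^N1 0 w` -/
theorem Dat.exists_V2 (D : Dat O) : ∃ V : Tr → Tr, FP O V ∧
    ∀ (n : ℕ) (w : List Bool), V (node (enc (ones n)) (enc w)) ≠ leaf ↔
      (prs w).1 = N2 D.a n ∧ (prs (prs w).2).1 = N1 D.a n ∧ D.Ref2 n (prs (prs w).2).2 := by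
  obtain ⟨coreT, hc1, hc2⟩ := D.exists_coreT
  obtain ⟨n1T, hn1, hn1'⟩ := D.exists_n1T
  obtain ⟨n2T, hn2, hn2'⟩ := D.exists_n2T
  obtain ⟨PT, hT1, hT2⟩ := exists_polyT D.T.p
  refine ⟨fun v => andT (n2T (fst v) (fst (parseT (snd v))))
    (andT (n1T (fst v) (fst (parseT (fst (snd (parseT (snd v)))))))
      (andT (qT D.T.R PT (runT O (blkT 1 (enc (key D.d (len (fst v)))))
          (onesPre (fst (parseT (fst (snd (parseT (snd v)))))) (node leaf (fst v)))
          (fst (parseT (snd v)))) (fst (snd (parseT (fst (snd (parseT (snd v))))))))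
        (cs (coreT (fst v) (fst (parseT (fst (snd (parseT (snd v))))))
          (runT O (blkT 2 (enc (key D.d (len (fst v)))))
            (node (onesPre (fst (parseT (fst (snd (parseT (snd v)))))) (node leaf (fst v)))
              (fst (snd (parseT (fst (snd (parseT (snd v))))))))
            (fst (parseT (snd v))))) tt leaf))), ?_, ?_⟩
  · have h1 : FP O (fun v => fst v) := FP.fst' FP.id'
    have h2 : FP O (fun v => snd v) := FP.snd' FP.id'
    have hN2 := FP.fst' (FP.parseT' h2)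
    have hr := FP.fst' (FP.snd' (FP.parseT' h2))
    have hN1 := FP.fst' (FP.parseT' hr)
    have hw := FP.fst' (FP.snd' (FP.parseT' hr))
    have hk := FP_key D.hd h1
    have hZ := FP.onesPre' hN1 (FP.node' FP.leaf' h1)
    exact FP.andT' (hn2 h1 hN2) (FP.andT' (hn1 h1 hN1) (FP.andT'
      (FP.qT' D.T.polyTime (hT2 O) (FP.runT' (FP.blkT' 1 hk) hZ hN2) hw)
      (FP.cs' (hc1 h1 hN1 (FP.runT' (FP.blkT' 2 hk) (FP.node' hZ hw) hN2)) (FP.const' tt)
        FP.leaf')))
  · intro n w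
    simp only [fst_node, snd_node, fst_parseT, snd_parseT]
    rw [andT_spec, andT_spec, hn2', hn1', len_num, len_num, len_enc, ones_length]
    refine and_congr_right fun h1 => and_congr_right fun h2 => ?_
    have e1 : onesPre (num (prs (prs w).2).1) (node leaf (enc (ones n))) = enc (Zst D.a n) := by
      have : node leaf (enc (ones n)) = enc (false :: ones n) := rfl
      rw [this, onesPre_enc, len_num, h2, Zst]
    rw [e1, andT_spec, qT_spec hT1, runT_eq, runT_eq, blkT_enc, blkT_enc, len_num, len_num,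
      len_num, h1, dec_enc, dec_enc, Dat.Ref2]
    refine and_congr Iff.rfl ?_
    have h3 := hc2 n (num (prs (prs w).2).1)
      (run O (blk 2 (key D.d n)) (node (enc (Zst D.a n)) (enc (prs (prs w).2).2)) (N2 D.a n))
      (by rw [len_num]; exact h2)
    by_cases h4 : D.Core n (run O (blk 2 (key D.d n))
        (node (enc (Zst D.a n)) (enc (prs (prs w).2).2)) (N2 D.a n))
    · rw [cs_neg _ _ (h3.mpr h4)]
      simp [h4]
    · rw [cs_pos _ _ (by
        by_contra h5
        exact h4 (h3.mp h5))]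
      simp [h4]

/-- the lengths at which the programs `e`, `i1`, `i2` are named and the exponent is at least `c` -/
def Cd2 (a : ℕ → ℕ) (d : ℕ → Bool) (e i1 i2 c n : ℕ) : Prop :=
  Cd a d e c n ∧ blk 1 (key d n) = i1 ∧ blk 2 (key d n) = i2

/-- a program for `Cd2` -/
theorem Dat.exists_cd2T (D : Dat O) (e i1 i2 c : ℕ) : ∃ cT : Tr → Tr,
    (∀ {F : Tr → Tr}, FP O F → FP O (fun v => cT (F v))) ∧
    ∀ v, cT v ≠ leaf ↔ Cd2 D.a D.d e i1 i2 c (len v) := by
  obtain ⟨cT, h1, h2⟩ := D.exists_cdT e c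
  refine ⟨fun v => andT (cT v) (andT (eqL (blkT 1 (enc (key D.d (len v)))) (num i1))
    (eqL (blkT 2 (enc (key D.d (len v)))) (num i2))), fun {F} hF => ?_, fun v => ?_⟩
  · exact FP.andT' (h1 hF) (FP.andT' (FP.eqL' (FP.blkT' 1 (FP_key D.hd hF)) (FP.const' _))
      (FP.eqL' (FP.blkT' 2 (FP_key D.hd hF)) (FP.const' _)))
  · rw [andT_spec, andT_spec, h2, eqL_spec, eqL_spec, blkT_enc, blkT_enc, len_num, len_num,
      len_num, len_num, Cd2]

/-- **The `Σ₂` half**: if the universal set is in `Σ₂` then no total problem is complete. -/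
theorem sigma_half {a : ℕ → ℕ} (ha : Slow O a) {d : ℕ → Bool} (hd : Marks O d)
    (h : InSigma2 O (LU O d a)) (T : TFNP O) : ¬ T.IsComplete := by
  intro hT
  obtain ⟨Q, p, q, hQ, hL⟩ := sigma2_form h
  let D : Dat O := ⟨T, Q, p, q, a, d, hQ, ha.polyTime, hd.polyTime⟩
  have hL' : ∀ n, ones n ∉ LU O d a ↔ ∀ u : List Bool, u.length ≤ D.p.eval n →
      ∃ v, D.Sol n u v := by
    intro n
    have := hL (ones n)
    rw [ones_length] at this
    exact this
  obtain ⟨V, hV, hVs⟩ := D.exists_V2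
  obtain ⟨e, c, hec⟩ := LU_iff hV (2 * Polynomial.X + 2 + D.T.p) d a
  have hiff : ∀ n, Cd a d e c n → (ones n ∈ LU O d a ↔ ∃ w, D.Ref2 n w) := by
    intro n hn
    rw [hec n hn.1 hn.2.1 hn.2.2]
    · constructor
      · rintro ⟨w, hw⟩
        exact ⟨_, ((hVs n w).mp hw).2.2⟩
      · rintro ⟨w, hw⟩
        refine ⟨List.replicate (N2 a n) true ++ false ::
          (List.replicate (N1 a n) true ++ false :: w), (hVs n _).mpr ?_⟩
        rw [prs_ones, prs_ones]
        exact ⟨rfl, rfl, hw⟩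
    · intro w hw
      obtain ⟨h1, h2, h3, _⟩ := (hVs n w).mp hw
      have h4 := length_le_prs w
      have h5 := length_le_prs (prs w).2
      have h6 := h3.1.trans (poly_mono D.T.p (run_length _ _ _))
      have h7 := N1_le_N2 a n
      have e1 : D.a = a := rfl
      rw [e1] at h1 h2 h6
      simp only [Polynomial.eval_add, Polynomial.eval_mul, Polynomial.eval_ofNat,
        Polynomial.eval_X]
      omega
  -- the problem `S0` is total
  have htot0 : ∀ n, Cd a d e c n → ∃ y, D.Core n y := by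
    intro n hn
    by_contra h1
    push Not at h1
    have h2 : ones n ∉ LU O d a := by
      rw [hL']
      exact fun u hu => D.sol_of_not_core h1 u hu
    rw [hiff n hn] at h2
    push Not at h2
    obtain ⟨w, hw⟩ := T.total (run O (blk 1 (key D.d n)) (enc (Zst D.a n)) (N2 D.a n))
    exact h2 w ⟨hw, h1 _⟩
  obtain ⟨cT, hcT, hcT'⟩ := D.exists_cdT e c
  obtain ⟨S0, hS0⟩ := D.exists_S0 (Cd a d e c) cT hcT hcT' htot0
  obtain ⟨i1, i2, B, hB⟩ := run_red (hT S0)
  obtain ⟨K, hK⟩ := poly_le_N2 B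
  -- the problem `S1` is total
  have hno : ∀ n, Cd2 a d e i1 i2 (max c K) n → ones n ∉ LU O d a := by
    intro n hn
    have hcd : Cd a d e c n := ⟨hn.1.1, hn.1.2.1, (le_max_left _ _).trans hn.1.2.2⟩
    rw [hiff n hcd]
    rintro ⟨w, hw1, hw2⟩
    have e1 : blk 1 (key D.d n) = i1 := hn.2.1
    have e2 : blk 2 (key D.d n) = i2 := hn.2.2
    rw [e1] at hw1
    rw [e2] at hw2
    apply hw2
    apply hS0 n _ hcd
    refine hB _ _ ?_ _ hw1
    refine le_trans (poly_mono B (n := 2 * N1 D.a n) ?_) (hK D.a n ?_)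
    · rw [Zst_length]
      have := lt_N1 D.a n
      omega
    · exact (le_max_right _ _).trans hn.1.2.2
  obtain ⟨cT', hcT1, hcT2⟩ := D.exists_cd2T e i1 i2 (max c K)
  obtain ⟨S1, hS1⟩ := D.exists_S1 (Cd2 a d e i1 i2 (max c K)) cT' hcT1 hcT2
    (fun n hn => (hL' n).mp (hno n hn))
  obtain ⟨j1, j2, K', hK'⟩ := D.not_core (hT S1) hS1
  obtain ⟨n, hn1, hn2, hn3⟩ := exists_large ha hd (mk [e, i1, i2, j1, j2]) (max (max c K) K')
  have hcd2 : Cd2 a d e i1 i2 (max c K) n := by
    refine ⟨⟨hn1, by rw [hn2, blk_zero], (le_max_left _ _).trans hn3⟩, ?_, ?_⟩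
    · rw [hn2, blk_succ, blk_zero]
    · rw [hn2, blk_succ, blk_succ, blk_zero]
  have hcd : Cd a d e c n :=
    ⟨hcd2.1.1, hcd2.1.2.1, (le_max_left _ _).trans hcd2.1.2.2⟩
  obtain ⟨y, hy⟩ := htot0 n hcd
  refine hK' n hcd2 ((le_max_right _ _).trans hn3) ?_ ?_ y hy
  · show blk 3 (key d n) = j1
    rw [hn2, blk_succ, blk_succ, blk_succ, blk_zero]
  · show blk 4 (key d n) = j2
    rw [hn2, blk_succ, blk_succ, blk_succ, blk_succ, blk_zero]

end Pool.Agent.H69.NL
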