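import Pool.Agent.H40.EL.Clock
import Pool.Agent.H40.EL.Arith2
import Pool.Agent.H65.NU.Up

set_option autoImplicit false

/-!
# Nondeterministic time slightly above polynomial time; growth functions and sets of lengths
-/

namespace Pool.Agent.H69.NL

open Pool.Agent.H88.RO Pool.Agent.H88.RO.Tr Pool.Agent.H65.TS Pool.Agent.H65.NU

/-- The set of strings `L` is accepted nondeterministically, relative to the oracle `O`, in time
about `n ^ a(n)`: membership of a string `x` of length `n` means that some witness of length at
most `(n + 2) ^ a(n)` is accepted by a fixed relation, decidable in time polynomial in the length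
of `x` and the witness.  (For constant functions `a` these are the sets in NP.) -/
def InNTime (O : List Bool → Bool) (a : ℕ → ℕ) (L : Set (List Bool)) : Prop :=
  ∃ R : List Bool → List Bool → Bool, PolyTimeRel O R ∧
    ∀ x, x ∈ L ↔ ∃ y : List Bool, y.length ≤ (x.length + 2) ^ a x.length ∧ R x y = true

/-- the string `1^n` -/
def ones (n : ℕ) : List Bool := List.replicate n true

/-- `a` is monotone, unbounded, and computable in polynomial time in unary notation. -/
structure Slow (O : List Bool → Bool) (a : ℕ → ℕ) : Prop where
  mono : Monotone a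
  unbounded : ∀ k, ∃ n, k ≤ a n
  polyTime : PolyTimeFun O (fun x => ones (a x.length))

/-- `d` marks an infinite set of lengths, which is decidable in polynomial time (in the length). -/
structure Marks (O : List Bool → Bool) (d : ℕ → Bool) : Prop where
  infinite : ∀ k, ∃ n, k ≤ n ∧ d n = true
  polyTime : PolyTimeFun O (fun x => [d x.length])

/-- `L` contains only strings `1^n` such that the length `n` is marked by `d`. -/
def TallyAt (d : ℕ → Bool) (L : Set (List Bool)) : Prop :=
  ∀ x ∈ L, ∃ n, d n = true ∧ x = ones n

variable {O : List Bool → Bool}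

@[simp] theorem ones_length (n : ℕ) : (ones n).length = n := by simp [ones]

/-- sets in `Π₂`, in the form: for all `u` there is a `v` -/
theorem pi2_form {L : Set (List Bool)} (h : InPi2 O L) :
    ∃ (Q : List Bool → List Bool → Bool) (p q : Polynomial ℕ), PolyTimeRel O Q ∧
      ∀ x, x ∈ L ↔ ∀ u : List Bool, u.length ≤ p.eval x.length →
        ∃ v : List Bool, v.length ≤ q.eval (pr x u).length ∧ Q (pr x u) v = true := by
  obtain ⟨M, p, ⟨Q, q, hQ, hM⟩, hL⟩ := h
  refine ⟨Q, p, q, hQ, fun x => ?_⟩
  have h1 := hL x
  constructor
  · intro hx u hu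
    have h2 : pr x u ∈ Mᶜ := fun h3 => absurd hx (h1.mpr ⟨u, hu, h3⟩)
    exact (hM _).mp h2
  · intro hx
    by_contra h2
    obtain ⟨u, hu, h3⟩ := h1.mp h2
    exact (hM _).mpr (hx u hu) h3

/-- sets in `Σ₂`: the complement is of the form: for all `u` there is a `v` -/
theorem sigma2_form {L : Set (List Bool)} (h : InSigma2 O L) :
    ∃ (Q : List Bool → List Bool → Bool) (p q : Polynomial ℕ), PolyTimeRel O Q ∧
      ∀ x, x ∉ L ↔ ∀ u : List Bool, u.length ≤ p.eval x.length →
        ∃ v : List Bool, v.length ≤ q.eval (pr x u).length ∧ Q (pr x u) v = true := by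
  have h' : InPi2 O Lᶜ := by
    unfold InPi2
    rw [compl_compl]
    exact h
  obtain ⟨Q, p, q, hQ, hL⟩ := pi2_form h'
  exact ⟨Q, p, q, hQ, hL⟩

end Pool.Agent.H69.NL
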