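import Pool.Agent.H69.NL.Defs

set_option autoImplicit false

/-!
# Every string is the key of infinitely many marked lengths
-/

namespace Pool.Agent.H69.NL

open Pool.Agent.H88.RO Pool.Agent.H88.RO.Tr Pool.Agent.H65.TS Pool.Agent.H65.NU

variable {O : List Bool → Bool}

/-- next state of the enumeration: first components `0, 0, 1, 0, 1, 2, 0, 1, 2, 3, ...` -/
def nxt (s : ℕ × ℕ) : ℕ × ℕ := if s.1 = s.2 then (0, s.2 + 1) else (s.1 + 1, s.2)

/-- the state after `k` steps -/
def st (k : ℕ) : ℕ × ℕ := nxt^[k] (0, 0)

/-- the number of marked lengths below `n` -/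
def idx (d : ℕ → Bool) (n : ℕ) : ℕ := Nat.count (fun m => d m = true) n

/-- the key of the length `n`: the string number `(st (idx d n)).1` -/
def key (d : ℕ → Bool) (n : ℕ) : List Bool := sc^[(st (idx d n)).1] []

theorem st_succ (k : ℕ) : st (k + 1) = nxt (st k) := by
  rw [st, Function.iterate_succ_apply', st]

theorem st_row {k r : ℕ} (h : st k = (0, r)) : ∀ i, i ≤ r → st (k + i) = (i, r) := by
  intro i
  induction i with
  | zero => intro _; exact h
  | succ i ih =>
    intro hi
    rw [← add_assoc, st_succ, ih (by omega), nxt, if_neg (by simp; omega)]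

theorem st_start (r : ℕ) : ∃ k, r ≤ k ∧ st k = (0, r) := by
  induction r with
  | zero => exact ⟨0, le_rfl, rfl⟩
  | succ r ih =>
    obtain ⟨k, h1, h2⟩ := ih
    refine ⟨k + r + 1, by omega, ?_⟩
    rw [st_succ, st_row h2 r le_rfl, nxt, if_pos rfl]

/-- every number occurs infinitely often in the enumeration -/
theorem st_surj (i B : ℕ) : ∃ k, B ≤ k ∧ (st k).1 = i := by
  obtain ⟨k, h1, h2⟩ := st_start (max i B)
  refine ⟨k + i, ?_, ?_⟩
  · have := le_max_right i B
    omega
  · rw [st_row h2 i (le_max_left _ _)]

/-- every string is the key of arbitrarily large marked lengths -/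
theorem key_all {d : ℕ → Bool} (hd : ∀ k, ∃ n, k ≤ n ∧ d n = true) (s : List Bool) (B : ℕ) :
    ∃ n, B ≤ n ∧ d n = true ∧ key d n = s := by
  obtain ⟨k, h1, h2⟩ := st_surj (sval s) B
  have hinf : ({m | d m = true} : Set ℕ).Infinite := by
    apply Set.infinite_of_not_bddAbove
    rintro ⟨b, hb⟩
    obtain ⟨n, hn1, hn2⟩ := hd (b + 1)
    have := hb (show n ∈ {m | d m = true} from hn2)
    omega
  have h3 : idx d (Nat.nth (fun m => d m = true) k) = k := by
    unfold idx
    exact Nat.count_nth_of_infinite hinf k
  refine ⟨Nat.nth (fun m => d m = true) k, ?_, Nat.nth_mem_of_infinite hinf k, ?_⟩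
  · have h4 : idx d (Nat.nth (fun m => d m = true) k) ≤ Nat.nth (fun m => d m = true) k :=
      Nat.count_le _
    omega
  · rw [key, h3, h2, sc_iter_sval]

/-- functions on strings as functions on trees -/
theorem FP.fn {f : List Bool → List Bool} (hf : PolyTimeFun O f) {F : Tr → Tr} (hF : FP O F) :
    FP O (fun v => enc (f (dec (F v)))) := by
  obtain ⟨c, q, hc⟩ := hf
  have h1 : FP O (fun v => enc (dec (F v))) := by
    have := FP.norm' hF
    simpa only [norm_eq] using this
  obtain ⟨s, hs⟩ := h1.size_bound
  obtain ⟨c1, q1, hc1⟩ := h1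
  refine ⟨Prog.comp c c1, q1 + q.comp s + Polynomial.X + 1, fun v => ?_⟩
  obtain ⟨t1, ht1, he1⟩ := hc1 v
  obtain ⟨t2, ht2, he2⟩ := hc (dec (F v))
  refine ⟨t2 + t1 + size v + 1, ?_, ?_⟩
  · have h2 : (dec (F v)).length ≤ s.eval (size v) := by
      have h3 := len_le_size (enc (dec (F v)))
      rw [len_enc] at h3
      have h4 := hs v
      omega
    have h5 := poly_mono q h2
    simp only [Polynomial.eval_add, Polynomial.eval_comp, Polynomial.eval_X, Polynomial.eval_one]
    omega
  · have := Eval.comp he1 he2
    rwa [add_comm t1 t2] at this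

theorem FP.mark {d : ℕ → Bool} (hd : PolyTimeFun O (fun x => [d x.length])) {F : Tr → Tr}
    (hF : FP O F) : FP O (fun v => bit (d (len (F v)))) := by
  have h := FP.fst' (FP.fn hd hF)
  simpa only [enc, fst_node, length_dec] using h

/-- program for `nxt` -/
def nxT (s : Tr) : Tr :=
  cs (eqL (fst s) (snd s)) (node (node leaf (fst s)) (snd s)) (node leaf (node leaf (snd s)))

theorem nxT_eq (s : ℕ × ℕ) : nxT (node (num s.1) (num s.2)) =
    node (num (nxt s).1) (num (nxt s).2) := by
  unfold nxT nxt
  simp only [fst_node, snd_node]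
  by_cases h : s.1 = s.2
  · rw [cs_neg _ _ (by rw [eqL_spec, len_num, len_num]; exact h), if_pos h]
    rfl
  · rw [cs_pos _ _ (by
      by_contra h1
      rw [← ne_eq, eqL_spec, len_num, len_num] at h1
      exact h h1), if_neg h]
    rfl

theorem FP.nxT' {F : Tr → Tr} (hF : FP O F) : FP O (fun v => nxT (F v)) :=
  FP.cs' (FP.eqL' (FP.fst' hF) (FP.snd' hF)) (FP.node' (FP.node' FP.leaf' (FP.fst' hF))
    (FP.snd' hF)) (FP.node' FP.leaf' (FP.node' FP.leaf' (FP.snd' hF)))

theorem size_nxT (s : Tr) : size (nxT s) ≤ size s + 6 := by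
  unfold nxT
  cases s with
  | leaf =>
    by_cases h : eqL (fst leaf) (snd leaf) = leaf
    · rw [cs_pos _ _ h]; simp [size]
    · rw [cs_neg _ _ h]; simp [size]
  | node a b =>
    by_cases h : eqL (fst (node a b)) (snd (node a b)) = leaf
    · rw [cs_pos _ _ h]; simp only [size, fst_node, snd_node]; omega
    · rw [cs_neg _ _ h]; simp only [size, snd_node]; omega

/-- one step of the computation of the key -/
def kst (d : ℕ → Bool) (s : Tr) : Tr :=
  node (node leaf (fst s)) (cs (bit (d (len (fst s)))) (snd s) (nxT (snd s)))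

theorem kst_iter (d : ℕ → Bool) (n : ℕ) : (kst d)^[n] (node leaf (node leaf leaf)) =
    node (num n) (node (num (st (idx d n)).1) (num (st (idx d n)).2)) := by
  induction n with
  | zero => rfl
  | succ n ih =>
    rw [Function.iterate_succ_apply', ih, kst]
    simp only [fst_node, snd_node, len_num]
    by_cases h : d n = true
    · have h1 : idx d (n + 1) = idx d n + 1 := by
        unfold idx
        rw [Nat.count_succ, if_pos h]
      rw [cs_neg _ _ (bit_ne_leaf.mpr h), nxT_eq, h1, st_succ]
      rfl
    · have h1 : idx d (n + 1) = idx d n := by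
        unfold idx
        rw [Nat.count_succ, if_neg h]
        rfl
      rw [cs_pos _ _ (by
        by_contra h2
        exact h (bit_ne_leaf.mp h2)), h1]
      rfl

theorem size_kst (d : ℕ → Bool) (s : Tr) : size (kst d s) ≤ size s + 12 := by
  unfold kst
  have h1 : size (cs (bit (d (len (fst s)))) (snd s) (nxT (snd s))) ≤ size (snd s) + 6 := by
    by_cases h : bit (d (len (fst s))) = leaf
    · rw [cs_pos _ _ h]; omega
    · rw [cs_neg _ _ h]; exact size_nxT _
  have h2 : size (fst s) + size (snd s) ≤ size s + 1 := Pool.Agent.H40.EL.size_pair_le s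
  simp only [size]
  omega

/-- keys are computable in polynomial time -/
theorem FP_key {d : ℕ → Bool} (hd : PolyTimeFun O (fun x => [d x.length])) {F : Tr → Tr}
    (hF : FP O F) : FP O (fun v => enc (key d (len (F v)))) := by
  have h1 : FP O (kst d) := by
    have hf : FP O (fun v => fst v) := FP.fst' FP.id'
    have hs : FP O (fun v => snd v) := FP.snd' FP.id'
    exact FP.node' (FP.node' FP.leaf' hf) (FP.cs' (FP.mark hd hf) hs (FP.nxT' hs))
  have h2 : FP O (fun v => (kst d)^[len (F v)] (node leaf (node leaf leaf))) :=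
    FP.iterate_add h1 hF (FP.const' _) 12 (size_kst d)
  have h3 : FP O (fun v => succT^[len (fst (snd ((kst d)^[len (F v)]
      (node leaf (node leaf leaf)))))] leaf) := by
    refine FP.iterate' (F := fun s => succT s) (FP.succT' FP.id') (FP.fst' (FP.snd' h2)) FP.leaf'
      ⟨4 * Polynomial.X + 5, fun n x i hi => ?_⟩
    have h1 : ∀ i, len (succT^[i] x) ≤ len x + i := by
      intro i
      induction i with
      | zero => simp
      | succ i ih =>
        rw [Function.iterate_succ_apply']
        have := len_succT_le (succT^[i] x)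
        omega
    simp only [Polynomial.eval_add, Polynomial.eval_mul, Polynomial.eval_ofNat, Polynomial.eval_X]
    cases i with
    | zero => simp; omega
    | succ i =>
      have h2 : (fun s => succT s)^[i + 1] x = succT (succT^[i] x) := by
        rw [Function.iterate_succ_apply']
      rw [h2]
      have h3 := size_succT_le (succT^[i] x)
      have h4 := h1 i
      have h5 := len_le_size n
      have h6 := len_le_size x
      omega
  have e : (fun v => enc (key d (len (F v)))) = (fun v => succT^[len (fst (snd
      ((kst d)^[len (F v)] (node leaf (node leaf leaf)))))] leaf) := by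
    funext v
    rw [kst_iter, snd_node, fst_node, len_num, succT_iter, key]
  rw [e]
  exact h3

end Pool.Agent.H69.NL
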