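import Pool.Agent.H69.NP.Main
import Pool.Agent.H69.NL.Ex
import Pool.Agent.H91.EL.Turing

/-!
# A complete total NP search problem separates nondeterministic time from the second level

The computation model, total NP search problems relative to an oracle and completeness are
defined in `Pool.Agent.H88.RO.Model`; polynomial time Turing reductions in
`Pool.Agent.H65.TS.Base`; the class `Σ₂` in `Pool.Agent.H65.NU.Defs`; Boolean combinations of sets
in `Σ₂` in `Pool.Agent.H69.NP.BC`; nondeterministic time `n ^ a(n)` and the conditions on the
exponent `a` and on the set of lengths `d` in `Pool.Agent.H69.NL.Defs`.

Theorem: let `a` be monotone, unbounded and computable in polynomial time in unary notation (for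
example the logarithm or the iterated logarithm), and let `d` mark an infinite set of lengths which
is decidable in polynomial time (for example all lengths, or a very sparse set).  If there is a
complete total NP search problem, under many-one or Turing reductions, then there is a set of
strings `1^n` with marked lengths `n` which is accepted in nondeterministic time `n ^ a(n)`, but is
not a Boolean combination of sets in `Σ₂`; in particular it is neither in `Σ₂` nor in `Π₂`.  All
notions are relative to an arbitrary oracle.

So a complete total NP search problem implies that nondeterministic time slightly above polynomial
time, and in particular NEXP, is not contained in the Boolean hierarchy over `Σ₂`.  By a theorem of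
Impagliazzo, Kabanets and Wigderson (not used here) this implies that NEXP does not have circuits of
polynomial size.

Proof.  The set is the universal set `L*`: the length `n` names programs (the key of `n`), each list
of programs is named by infinitely many marked lengths, and `1^n` is in `L*` if the first program
accepts some witness, of length at most `n ^ a(n)`, on input `1^n`.

A Boolean combination of sets in `Σ₂` is given by the parity of the index of the last one of
finitely many nested sets `R 0 ⊇ R 1 ⊇ ...` in `Π₂` which contains the string.  Let `R 0` be the
set of all strings, and `1^n` in `L*` iff this index `r` is even.  Let `T` be a complete problem.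
We find an infinite set of lengths, again decidable in polynomial time, and a smaller exponent
such that the universal set for them has a description of this kind with the sets `R 0`, `R 3`,
`R 4`, ..., and repeat this until no set is left, when every string is in the universal
set: a contradiction.

For one step let the name of `n` consist of the programs `e, i, i', j, j'` and the name `s` of further
programs; `G(n)` says that the first program of `s` accepts some witness (with a smaller bound).
Let `Q1`, `Q2` be the relations of the sets `R 1`, `R 2` (for all `u` there is a `v`).  Let `S1` be
the problem: given `1^n`, `u` find a solution `v` for `Q1` or a witness for `G(n)`.  Let `S2` be the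
problem: given `1^n`, `u` find strings which refute that `j, j'` reduce `S1` to `T` at length `n`,
or a solution `v` for `Q2` or a witness for `G(n)`.  Let `e` be the program which accepts the
strings which refute that `i, i'` reduce `S2` to `T` at length `n`, and the witnesses for `G(n)`.
(The instances also contain clocks in unary notation, larger for `S2` than for `S1`.)

`S2` is total: if `(1^n, u)` has no solution then `j, j'` are not refuted, so, as `T` is total,
`S1` has solutions for this `n`, and `G(n)` is false, so `1^n` is in `R 1` and not in `R 2`,
`r = 1` is odd, `1^n` is not in `L*`, so `i, i'` are not refuted, and so `S2` has solutions for this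
`n`.  Now let `i, i'` be a reduction from `S2` to `T`: then `1^n` is in `L*` iff `G(n)`.  `S1` is
total (for these `n`): if `(1^n, u)` has no solution then `1^n` is not in `R 1`, `r = 0` is even, so
`1^n` is in `L*` and `G(n)` holds, and there is a solution.  Finally let `j, j'` be a reduction from
`S1` to `T`.  If `G(n)` is false then, since `S2` is total, `1^n` is in `R 2`, and `r` is odd, so
`r` is at least 3.  So `G(n)` holds iff the last index for `R 0`, `R 3`, `R 4`, ... is even.
-/

set_option autoImplicit false

namespace Pool.Agent.H69.NL.Final

open Pool.Agent.H88.RO Pool.Agent.H65.TS Pool.Agent.H65.NU Pool.Agent.H69.NL Pool.Agent.H69.NP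

/-- **If there is a complete total NP search problem (under Turing reductions), then some tally
set in nondeterministic time `n ^ a(n)` is not a Boolean combination of sets in `Σ₂`.** -/
theorem result (O : List Bool → Bool) :
    (Slow O (fun n => Nat.log 2 n) ∧ Slow O (fun n => Nat.log 2 (Nat.log 2 n)) ∧
      Marks O (fun _ => true)) ∧
    ∀ (a : ℕ → ℕ) (d : ℕ → Bool), Slow O a → Marks O d →
      (∃ T : TFNP O, ∀ S : TFNP O, TuringReduces S T) →
      ∃ L : Set (List Bool), TallyAt d L ∧ InNTime O a L ∧ ¬ BC O L := by
  refine ⟨⟨slow_log, slow_log_log, marks_all⟩, fun a d ha hd ⟨T, hT⟩ => ?_⟩
  obtain ⟨H, hH⟩ := Pool.Agent.H91.EL.complete_of_turing hT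
  exact ⟨(base ha hd).LU, (base ha hd).LU_tally, (base ha hd).LU_inNTime, main ha hd hH⟩

end Pool.Agent.H69.NL.Final
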