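import Pool.Agent.H69.NL.Red

set_option autoImplicit false

/-!
# If the universal set is in `Π₂` then no problem is complete
-/

namespace Pool.Agent.H69.NL

open Pool.Agent.H88.RO Pool.Agent.H88.RO.Tr Pool.Agent.H65.TS Pool.Agent.H65.NU
open Pool.Agent.H40.EL (andT andT_spec FP.andT' lam lamT lamT_eq FP.lamT' sqT sqT_spec FP.sqT')

variable {O : List Bool → Bool}

/-- the lengths at which the program number `e` is named and the exponent is at least `c` -/
def Cd (a : ℕ → ℕ) (d : ℕ → Bool) (e c n : ℕ) : Prop :=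
  d n = true ∧ blk 0 (key d n) = e ∧ c ≤ lam (a n)

/-- a program for `Cd` -/
theorem Dat.exists_cdT (D : Dat O) (e c : ℕ) : ∃ cT : Tr → Tr,
    (∀ {F : Tr → Tr}, FP O F → FP O (fun v => cT (F v))) ∧
    ∀ v, cT v ≠ leaf ↔ Cd D.a D.d e c (len v) := by
  obtain ⟨aT, ha1, ha2⟩ := D.exists_aT
  refine ⟨fun v => andT (bit (D.d (len v))) (andT (eqL (blkT 0 (enc (key D.d (len v)))) (num e))
    (cs (dropU (lamT (aT v)) (num c)) tt leaf)), fun {F} hF => ?_, fun v => ?_⟩
  · exact FP.andT' (FP.mark D.hd hF) (FP.andT' (FP.eqL' (FP.blkT' 0 (FP_key D.hd hF))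
      (FP.const' _)) (FP.cs' (FP.dropU' (FP.lamT' (ha1 hF)) (FP.const' _)) (FP.const' tt)
        FP.leaf'))
  · rw [andT_spec, andT_spec, bit_ne_leaf, eqL_spec, blkT_enc, len_num, len_num, Cd]
    refine and_congr Iff.rfl (and_congr Iff.rfl ?_)
    by_cases h : c ≤ lam (D.a (len v))
    · rw [cs_pos _ _ (by rw [dropU_eq_leaf, lamT_eq, len_num, len_num, ha2]; exact h)]
      simp [h]
    · rw [cs_neg _ _ (by rw [ne_eq, dropU_eq_leaf, lamT_eq, len_num, len_num, ha2]; exact h)]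
      simp [h]

/-- a program for the test `len N = (n + 2) ^ (2 ^ β)`, `β = lam (a n)` -/
theorem Dat.exists_n1T (D : Dat O) : ∃ nT : Tr → Tr → Tr,
    (∀ {F G : Tr → Tr}, FP O F → FP O G → FP O (fun v => nT (F v) (G v))) ∧
    ∀ X N, nT X N ≠ leaf ↔ len N = N1 D.a (len X) := by
  obtain ⟨aT, ha1, ha2⟩ := D.exists_aT
  refine ⟨fun X N => sqT (node leaf (node leaf X)) (lamT (aT X)) N, fun hF hG => ?_,
    fun X N => ?_⟩
  · exact FP.sqT' (FP.node' FP.leaf' (FP.node' FP.leaf' hF)) (FP.lamT' (ha1 hF)) hG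
  · rw [sqT_spec, lamT_eq, len_num, ha2, N1]
    exact ⟨fun h => h.symm, fun h => h.symm⟩

/-- a program for the test `len N = (n + 2) ^ (2 ^ (2 β))`, `β = lam (a n)` -/
theorem Dat.exists_n2T (D : Dat O) : ∃ nT : Tr → Tr → Tr,
    (∀ {F G : Tr → Tr}, FP O F → FP O G → FP O (fun v => nT (F v) (G v))) ∧
    ∀ X N, nT X N ≠ leaf ↔ len N = N2 D.a (len X) := by
  obtain ⟨aT, ha1, ha2⟩ := D.exists_aT
  refine ⟨fun X N => sqT (node leaf (node leaf X)) (addU (lamT (aT X)) (lamT (aT X))) N,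
    fun hF hG => ?_, fun X N => ?_⟩
  · exact FP.sqT' (FP.node' FP.leaf' (FP.node' FP.leaf' hF))
      (FP.addU' (FP.lamT' (ha1 hF)) (FP.lamT' (ha1 hF))) hG
  · rw [sqT_spec, Lazy.len_addU, lamT_eq, len_num, ha2, N2, two_mul]
    exact ⟨fun h => h.symm, fun h => h.symm⟩

/-- **The `Π₂` half**: if the universal set is in `Π₂` then every total problem `T` has a total
problem which does not reduce to it. -/
theorem pi_half {a : ℕ → ℕ} (ha : Slow O a) {d : ℕ → Bool} (hd : Marks O d)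
    (h : InPi2 O (LU O d a)) (T : TFNP O) : ∃ S : TFNP O, ¬ S.Reduces T := by
  obtain ⟨Q, p, q, hQ, hL⟩ := pi2_form h
  let D : Dat O := ⟨T, Q, p, q, a, d, hQ, ha.polyTime, hd.polyTime⟩
  have hL' : ∀ n, ones n ∈ LU O d a ↔ ∀ u : List Bool, u.length ≤ D.p.eval n →
      ∃ v, D.Sol n u v := by
    intro n
    have := hL (ones n)
    rw [ones_length] at this
    exact this
  obtain ⟨coreT, hc1, hc2⟩ := D.exists_coreT
  obtain ⟨nT, hn1, hn2⟩ := D.exists_n1T
  let V : Tr → Tr := fun v => andT (nT (fst v) (fst (parseT (snd v))))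
    (coreT (fst v) (fst (parseT (snd v))) (fst (snd (parseT (snd v)))))
  have hV : FP O V := by
    have h1 : FP O (fun v => fst v) := FP.fst' FP.id'
    have h2 : FP O (fun v => snd v) := FP.snd' FP.id'
    have h3 := FP.fst' (FP.parseT' h2)
    exact FP.andT' (hn1 h1 h3) (hc1 h1 h3 (FP.fst' (FP.snd' (FP.parseT' h2))))
  have hVs : ∀ (n : ℕ) (w : List Bool), V (node (enc (ones n)) (enc w)) ≠ leaf ↔
      (prs w).1 = N1 a n ∧ D.Core n (prs w).2 := by
    intro n w
    simp only [V, fst_node, snd_node, fst_parseT, snd_parseT]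
    rw [andT_spec, hn2, len_num, len_enc, ones_length]
    refine and_congr_right fun h1 => ?_
    exact hc2 n _ _ (by rw [len_num]; exact h1)
  obtain ⟨e, c, hec⟩ := LU_iff hV (Polynomial.X + 1 + D.cB) d a
  have hiff : ∀ n, Cd a d e c n → (ones n ∈ LU O d a ↔ ∃ y, D.Core n y) := by
    intro n hn
    rw [hec n hn.1 hn.2.1 hn.2.2]
    · constructor
      · rintro ⟨w, hw⟩
        exact ⟨_, ((hVs n w).mp hw).2⟩
      · rintro ⟨y, hy⟩
        refine ⟨List.replicate (N1 a n) true ++ false :: y, (hVs n _).mpr ?_⟩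
        rw [prs_ones]
        exact ⟨rfl, hy⟩
    · intro w hw
      obtain ⟨h1, h2⟩ := (hVs n w).mp hw
      have h3 := length_le_prs w
      have h4 := D.core_length h2 (N1_le_N2 a n)
      have h5 := N1_le_N2 a n
      simp only [Polynomial.eval_add, Polynomial.eval_X, Polynomial.eval_one]
      omega
  have htrue : ∀ n, Cd a d e c n → ones n ∈ LU O d a := by
    intro n hn
    by_contra h1
    apply h1
    rw [hL']
    rw [hiff n hn] at h1
    push Not at h1
    exact fun u hu => D.sol_of_not_core h1 u hu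
  obtain ⟨cT, hcT, hcT'⟩ := D.exists_cdT e c
  obtain ⟨S, hS⟩ := D.exists_S1 (Cd a d e c) cT hcT hcT'
    (fun n hn => (hL' n).mp (htrue n hn))
  refine ⟨S, fun hred => ?_⟩
  obtain ⟨j1, j2, K, hK⟩ := D.not_core hred hS
  obtain ⟨n, hn1, hn2, hn3⟩ := exists_large ha hd (mk [e, 0, 0, j1, j2]) (max c K)
  have hcd : Cd a d e c n := ⟨hn1, by rw [hn2, blk_zero], (le_max_left _ _).trans hn3⟩
  obtain ⟨y, hy⟩ := (hiff n hcd).mp (htrue n hcd)
  refine hK n hcd ((le_max_right _ _).trans hn3) ?_ ?_ y hy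
  · show blk 3 (key d n) = j1
    rw [hn2, blk_succ, blk_succ, blk_succ, blk_zero]
  · show blk 4 (key d n) = j2
    rw [hn2, blk_succ, blk_succ, blk_succ, blk_succ, blk_zero]

end Pool.Agent.H69.NL
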