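import Pool.Agent.H69.NL.Ref

set_option autoImplicit false

/-!
# Reductions as pairs of numbered programs with the clocks `N1` and `N2`
-/

namespace Pool.Agent.H69.NL

open Pool.Agent.H88.RO Pool.Agent.H88.RO.Tr Pool.Agent.H65.TS Pool.Agent.H65.NU
open Pool.Agent.H40.EL (andT andT_spec FP.andT' lam lamT lamT_eq FP.lamT' exists_pow_bound'
  log_log)

variable {O : List Bool → Bool}

/-- a many-one reduction as a pair of numbered programs -/
theorem run_red {S T : TFNP O} (h : S.Reduces T) : ∃ (i1 i2 : ℕ) (B : Polynomial ℕ),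
    ∀ (z : List Bool) (N : ℕ), B.eval z.length ≤ N → ∀ w, T.IsSol (run O i1 (enc z) N) w →
      S.IsSol z (run O i2 (node (enc z) (enc w)) N) := by
  obtain ⟨f, g, hf, hg, hfg⟩ := h
  obtain ⟨i1, k1, h1⟩ := exists_run hf
  obtain ⟨i2, k2, h2⟩ := exists_run₂ hg
  refine ⟨i1, i2, k1 + k2.comp (Polynomial.X + T.p.comp k1), fun z N hN w hw => ?_⟩
  simp only [Polynomial.eval_add, Polynomial.eval_comp, Polynomial.eval_X] at hN
  rw [h1 z N (by omega)] at hw
  have h3 : (f z).length ≤ k1.eval z.length := by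
    rw [← h1 z _ le_rfl]
    exact run_length _ _ _
  have h4 : w.length ≤ T.p.eval (k1.eval z.length) := hw.1.trans (poly_mono T.p h3)
  have h5 := poly_mono k2 (Nat.add_le_add_left h4 z.length)
  rw [h2 z w N (by omega)]
  exact hfg z w hw

/-- large values of `lam` -/
theorem lam_large (K : ℕ) : ∃ M, ∀ m, M ≤ m → K ≤ lam m := by
  refine ⟨2 ^ 2 ^ K, fun m hm => ?_⟩
  unfold lam
  rw [← log_log K]
  exact Nat.log_mono_right (Nat.log_mono_right (by omega))

/-- every string is the key of a marked length at which the exponent is large -/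
theorem exists_large {a : ℕ → ℕ} (ha : Slow O a) {d : ℕ → Bool} (hd : Marks O d) (s : List Bool)
    (K : ℕ) : ∃ n, d n = true ∧ key d n = s ∧ K ≤ lam (a n) := by
  obtain ⟨M, hM⟩ := lam_large K
  obtain ⟨n0, hn0⟩ := ha.unbounded M
  obtain ⟨n, h1, h2, h3⟩ := key_all hd.infinite s n0
  exact ⟨n, h2, h3, hM _ (hn0.trans (ha.mono h1))⟩

/-- polynomials of `n` are below `N1` at lengths with large exponents -/
theorem poly_le_N1 (B : Polynomial ℕ) : ∃ K, ∀ (a : ℕ → ℕ) (n : ℕ), K ≤ lam (a n) →
    B.eval n ≤ N1 a n := by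
  obtain ⟨D, hD⟩ := exists_pow_bound' B
  refine ⟨D, fun a n h => (hD (2 ^ lam (a n)) ?_ n).trans le_rfl⟩
  have := Nat.lt_two_pow_self (n := lam (a n))
  omega

/-- polynomials of `N1` are below `N2` at lengths with large exponents -/
theorem poly_le_N2 (B : Polynomial ℕ) : ∃ K, ∀ (a : ℕ → ℕ) (n : ℕ), K ≤ lam (a n) →
    B.eval (2 * N1 a n) ≤ N2 a n := by
  obtain ⟨D, hD⟩ := exists_pow_bound' B
  refine ⟨3 * D, fun a n h => (hD D le_rfl _).trans ?_⟩
  have h1 : 2 ≤ N1 a n := by
    have := lt_N1 a n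
    omega
  calc (2 * N1 a n + 2) ^ D ≤ (N1 a n ^ 3) ^ D := by
        apply Nat.pow_le_pow_left
        have h2 : N1 a n ^ 3 = N1 a n * N1 a n * N1 a n := by ring
        rw [h2]
        nlinarith [Nat.mul_le_mul h1 h1]
    _ = (n + 2) ^ (2 ^ lam (a n) * (3 * D)) := by
        unfold N1
        rw [← pow_mul, ← pow_mul]
    _ ≤ N2 a n := by
        unfold N2
        apply Nat.pow_le_pow_right (by omega)
        have h3 : 3 * D ≤ 2 ^ lam (a n) := by
          have := Nat.lt_two_pow_self (n := lam (a n))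
          omega
        calc 2 ^ lam (a n) * (3 * D) ≤ 2 ^ lam (a n) * 2 ^ lam (a n) :=
              Nat.mul_le_mul_left _ h3
          _ = 2 ^ (2 * lam (a n)) := by rw [← pow_add]; congr 1; ring

/-- the length of a string and the blocks read by `prs` -/
theorem length_le_prs (w : List Bool) : w.length ≤ (prs w).1 + (prs w).2.length + 1 := by
  unfold prs
  rcases h : parse w with _ | ⟨m, v⟩
  · simp only; omega
  · have := parse_some h
    rw [this]
    simp only [List.length_append, List.length_replicate, List.length_cons]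
    omega

/-- A reduction of a problem which contains `Sol` at the lengths in `C` cannot be refuted. -/
theorem Dat.not_core (D : Dat O) {S : TFNP O} (hS : S.Reduces D.T) {C : ℕ → Prop}
    (h : ∀ (n : ℕ) (u v : List Bool), C n → u.length ≤ D.p.eval n →
      S.IsSol (pr (ones n) u) v → D.Sol n u v) :
    ∃ j1 j2 K : ℕ, ∀ n, C n → K ≤ lam (D.a n) → blk 3 (key D.d n) = j1 →
      blk 4 (key D.d n) = j2 → ∀ y, ¬ D.Core n y := by
  obtain ⟨j1, j2, B, hB⟩ := run_red hS
  obtain ⟨K, hK⟩ := poly_le_N1 (B.comp (2 * Polynomial.X + 1 + D.p))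
  refine ⟨j1, j2, K, fun n hn hKn e1 e2 y hy => ?_⟩
  obtain ⟨_, h1, h2, h3⟩ := hy
  rw [e1] at h2
  rw [e2] at h3
  have h4 : B.eval (pr (ones n) (un1 y)).length ≤ N1 D.a n := by
    refine le_trans (poly_mono B (n := 2 * n + 1 + D.p.eval n) ?_) ?_
    · rw [pr_length, ones_length]
      omega
    · have := hK D.a n hKn
      simpa only [Polynomial.eval_comp, Polynomial.eval_add, Polynomial.eval_mul,
        Polynomial.eval_ofNat, Polynomial.eval_X, Polynomial.eval_one] using this
  exact h3 (h n _ _ hn h1 (hB _ _ h4 _ h2))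

/-- if nothing is refuted then there are solutions (as `T` is total) -/
theorem Dat.sol_of_not_core (D : Dat O) {n : ℕ} (h : ∀ y, ¬ D.Core n y) (u : List Bool)
    (hu : u.length ≤ D.p.eval n) : ∃ v, D.Sol n u v := by
  obtain ⟨w, hw⟩ := D.T.total (run O (blk 3 (key D.d n)) (enc (pr (ones n) u)) (N1 D.a n))
  by_contra h1
  push Not at h1
  exact h (pr u w) (D.core_pr.mpr ⟨hu, hw, h1 _⟩)

end Pool.Agent.H69.NL
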