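import Pool.Agent.H69.NL.Univ

set_option autoImplicit false

/-!
# Refutations of reductions, and the search problems of the proof
-/

namespace Pool.Agent.H69.NL

open Pool.Agent.H88.RO Pool.Agent.H88.RO.Tr Pool.Agent.H65.TS Pool.Agent.H65.NU
open Pool.Agent.H40.EL (andT andT_spec FP.andT' lam lamT lamT_eq FP.lamT' sqT sqT_spec FP.sqT')

variable {O : List Bool → Bool}

/-- The data of the proof: a total problem `T`, a relation `Q` with bounds `p` and `q`, a function
`a` and a set of lengths. -/
structure Dat (O : List Bool → Bool) where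
  /-- the total problem -/
  T : TFNP O
  /-- the relation -/
  Q : List Bool → List Bool → Bool
  /-- the bound for the universally quantified strings -/
  p : Polynomial ℕ
  /-- the bound for the solutions -/
  q : Polynomial ℕ
  /-- the exponent -/
  a : ℕ → ℕ
  /-- the set of lengths -/
  d : ℕ → Bool
  hQ : PolyTimeRel O Q
  ha : PolyTimeFun O (fun x => ones (a x.length))
  hd : PolyTimeFun O (fun x => [d x.length])

variable (D : Dat O)

/-- `v` is a solution of the instance `(1^n, u)` -/
def Dat.Sol (n : ℕ) (u v : List Bool) : Prop :=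
  v.length ≤ D.q.eval (pr (ones n) u).length ∧ D.Q (pr (ones n) u) v = true

/-- `u`, `w` refute that the programs number `j1`, `j2`, with clock `N`, reduce the problem `Sol`
at length `n` to `T` -/
def Dat.Ref (n N j1 j2 : ℕ) (u w : List Bool) : Prop :=
  u.length ≤ D.p.eval n ∧ D.T.IsSol (run O j1 (enc (pr (ones n) u)) N) w ∧
    ¬ D.Sol n u (run O j2 (node (enc (pr (ones n) u)) (enc w)) N)

/-- `y` is a pair of strings which refutes that the programs named by the last two numbers of the
key of `n` reduce the problem `Sol` at length `n` to `T` -/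
def Dat.Core (n : ℕ) (y : List Bool) : Prop :=
  y.length = 2 * (un1 y).length + 1 + (un2 y).length ∧
    D.Ref n (N1 D.a n) (blk 3 (key D.d n)) (blk 4 (key D.d n)) (un1 y) (un2 y)

theorem Dat.core_pr {n : ℕ} {u w : List Bool} : D.Core n (pr u w) ↔
    D.Ref n (N1 D.a n) (blk 3 (key D.d n)) (blk 4 (key D.d n)) u w := by
  rw [Dat.Core, un1_pr, un2_pr, pr_length]
  exact ⟨fun h => h.2, fun h => ⟨rfl, h⟩⟩

/-- the bound for the length of `y` -/
noncomputable def Dat.cB : Polynomial ℕ := 2 * D.p + 1 + D.T.p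

theorem N1_le_N2 (a : ℕ → ℕ) (n : ℕ) : N1 a n ≤ N2 a n := by
  unfold N1 N2
  apply Nat.pow_le_pow_right (by omega)
  apply Nat.pow_le_pow_right (by norm_num)
  omega

theorem lt_N1 (a : ℕ → ℕ) (n : ℕ) : n + 1 < N1 a n := by
  unfold N1
  calc n + 1 < n + 2 := by omega
    _ = (n + 2) ^ 1 := (pow_one _).symm
    _ ≤ _ := Nat.pow_le_pow_right (by omega) (Nat.one_le_two_pow)

theorem Dat.core_length {n : ℕ} {y : List Bool} (h : D.Core n y) {m : ℕ} (hm : N1 D.a n ≤ m) :
    y.length ≤ D.cB.eval m := by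
  obtain ⟨h1, h2, h3, _⟩ := h
  have h4 := h3.1
  have h5 := poly_mono D.T.p ((run_length (O := O) (blk 3 (key D.d n))
    (enc (pr (ones n) (un1 y))) (N1 D.a n)).trans hm)
  have h6 := lt_N1 D.a n
  have h7 := poly_mono D.p (show n ≤ m by omega)
  simp only [Dat.cB, Polynomial.eval_add, Polynomial.eval_mul, Polynomial.eval_ofNat,
    Polynomial.eval_one]
  omega

/-- a program for `Core` (the arguments are `1^n`, the clock and the string `y`) -/
theorem Dat.exists_coreT : ∃ cT : Tr → Tr → Tr → Tr,
    (∀ {F G H : Tr → Tr}, FP O F → FP O G → FP O H → FP O (fun v => cT (F v) (G v) (H v))) ∧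
    ∀ (n : ℕ) (N : Tr) (y : List Bool), len N = N1 D.a n →
      (cT (enc (ones n)) N (enc y) ≠ leaf ↔ D.Core n y) := by
  obtain ⟨Pp, hp1, hp2⟩ := exists_polyT D.p
  obtain ⟨Pq, hq1, hq2⟩ := exists_polyT D.q
  obtain ⟨PT, hT1, hT2⟩ := exists_polyT D.T.p
  refine ⟨fun X N Y => andT (eqL Y (addU (un1T Y) (addU (un1T Y) (node leaf (un2T Y)))))
    (cs (dropU (Pp X) (un1T Y))
      (andT (qT D.T.R PT (runT O (blkT 3 (enc (key D.d (len X)))) (prT X (un1T Y)) N) (un2T Y))
        (cs (qT D.Q Pq (prT X (un1T Y)) (runT O (blkT 4 (enc (key D.d (len X))))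
          (node (prT X (un1T Y)) (un2T Y)) N)) tt leaf)) leaf), ?_, ?_⟩
  · intro F G H hF hG hH
    have hu := FP.un1T' hH
    have hw := FP.un2T' hH
    have hk := FP_key D.hd hF
    have hz := FP.prT' hF hu
    exact FP.andT' (FP.eqL' hH (FP.addU' hu (FP.addU' hu (FP.node' FP.leaf' hw))))
      (FP.cs' (FP.dropU' (hp2 _ _ hF) hu)
        (FP.andT' (FP.qT' D.T.polyTime (hT2 O) (FP.runT' (FP.blkT' 3 hk) hz hG) hw)
          (FP.cs' (FP.qT' D.hQ (hq2 O) hz (FP.runT' (FP.blkT' 4 hk) (FP.node' hz hw) hG))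
            (FP.const' tt) FP.leaf')) FP.leaf')
  · intro n N y hN
    rw [andT_spec, eqL_spec, Dat.Core, Dat.Ref]
    simp only [un1T_enc, un2T_enc, Lazy.len_addU, len_enc, len, ones_length, blkT_enc, prT_enc,
      runT_eq, len_num, hN]
    refine and_congr ⟨fun h => by omega, fun h => by omega⟩ ?_
    by_cases h : (un1 y).length ≤ D.p.eval n
    · rw [cs_pos _ _ (by rw [dropU_eq_leaf, hp1, len_num, len_enc, len_enc, ones_length]; exact h),
        andT_spec, qT_spec hT1, dec_enc, dec_enc]
      simp only [h, true_and]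
      refine and_congr Iff.rfl ?_
      by_cases h2 : D.Sol n (un1 y) (run O (blk 4 (key D.d n))
          (node (enc (pr (ones n) (un1 y))) (enc (un2 y))) (N1 D.a n))
      · rw [cs_neg _ _ (by rw [qT_spec hq1, dec_enc, dec_enc]; exact h2)]
        simp [h2]
      · rw [cs_pos _ _ (by
          by_contra h3
          rw [← ne_eq, qT_spec hq1, dec_enc, dec_enc] at h3
          exact h2 h3)]
        simp [h2]
    · rw [cs_neg _ _ (by
        rw [ne_eq, dropU_eq_leaf, hp1, len_num, len_enc, len_enc, ones_length]; exact h)]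
      simp [h]

/-- The problem `Sol`, restricted to the lengths in `C`. -/
theorem Dat.exists_S1 (C : ℕ → Prop) (cT : Tr → Tr)
    (hC : ∀ {F : Tr → Tr}, FP O F → FP O (fun v => cT (F v)))
    (hC' : ∀ v, cT v ≠ leaf ↔ C (len v))
    (htot : ∀ n, C n → ∀ u : List Bool, u.length ≤ D.p.eval n → ∃ v, D.Sol n u v) :
    ∃ S : TFNP O, ∀ (n : ℕ) (u v : List Bool), C n → u.length ≤ D.p.eval n →
      S.IsSol (pr (ones n) u) v → D.Sol n u v := by
  classical
  obtain ⟨Pp, hp1, hp2⟩ := exists_polyT D.p
  obtain ⟨Pq, hq1, hq2⟩ := exists_polyT D.q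
  let R : List Bool → List Bool → Bool := fun z v =>
    decide (C (un1 z).length ∧ (un2 z).length ≤ D.p.eval (un1 z).length →
      D.Sol (un1 z).length (un2 z) v)
  have hR : PolyTimeRel O R := by
    have h1 : FP O (fun v => fst v) := FP.fst' FP.id'
    have h2 : FP O (fun v => snd v) := FP.snd' FP.id'
    have hx : FP O (fun v => onesPre (un1T (fst v)) leaf) := FP.onesPre' (FP.un1T' h1) FP.leaf'
    have hu := FP.un2T' h1
    have h3 : FP O (fun v => cs (andT (cT (un1T (fst v))) (cs (dropU (Pp (un1T (fst v)))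
        (un2T (fst v))) tt leaf)) tt
        (qT D.Q Pq (prT (onesPre (un1T (fst v)) leaf) (un2T (fst v))) (snd v))) :=
      FP.cs' (FP.andT' (hC (FP.un1T' h1)) (FP.cs' (FP.dropU' (hp2 _ _ (FP.un1T' h1)) hu)
        (FP.const' tt) FP.leaf')) (FP.const' tt) (FP.qT' D.hQ (hq2 O) (FP.prT' hx hu) h2)
    refine polyTimeRel_of_FP h3 (fun z v => ?_)
    simp only [fst_node, snd_node, un1T_enc, un2T_enc, onesPre_leaf, len_enc, prT_enc]
    have e : (R z v = true) = (C (un1 z).length ∧ (un2 z).length ≤ D.p.eval (un1 z).length →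
      D.Sol (un1 z).length (un2 z) v) := by simp only [R, decide_eq_true_eq]
    rw [e]
    by_cases h4 : C (un1 z).length ∧ (un2 z).length ≤ D.p.eval (un1 z).length
    · have h5 : andT (cT (enc (un1 z))) (cs (dropU (Pp (enc (un1 z))) (enc (un2 z))) tt leaf) ≠
          leaf := by
        rw [andT_spec, hC', len_enc]
        refine ⟨h4.1, ?_⟩
        rw [cs_pos _ _ (by rw [dropU_eq_leaf, hp1, len_num, len_enc, len_enc]; exact h4.2)]
        exact tt_ne
      rw [cs_neg _ _ h5, qT_spec hq1, dec_enc, dec_enc]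
      exact ⟨fun h _ => h, fun h => h h4⟩
    · have h5 : andT (cT (enc (un1 z))) (cs (dropU (Pp (enc (un1 z))) (enc (un2 z))) tt leaf) =
          leaf := by
        by_contra h6
        rw [← ne_eq, andT_spec, hC', len_enc] at h6
        apply h4
        refine ⟨h6.1, ?_⟩
        by_contra h7
        apply h6.2
        rw [cs_neg _ _ (by rw [ne_eq, dropU_eq_leaf, hp1, len_num, len_enc, len_enc]; exact h7)]
      rw [cs_pos _ _ h5]
      simp [h4]
  have hlen : ∀ z : List Bool, (pr (ones (un1 z).length) (un2 z)).length ≤ 3 * z.length + 1 := by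
    intro z
    rw [pr_length, ones_length]
    have := un1_length z
    have := un2_length z
    omega
  refine ⟨⟨R, D.q.comp (3 * Polynomial.X + 1), hR, fun z => ?_⟩, ?_⟩
  · by_cases h4 : C (un1 z).length ∧ (un2 z).length ≤ D.p.eval (un1 z).length
    · obtain ⟨v, hv⟩ := htot _ h4.1 _ h4.2
      refine ⟨v, hv.1.trans ?_, ?_⟩
      · simp only [Polynomial.eval_comp, Polynomial.eval_add, Polynomial.eval_mul,
          Polynomial.eval_ofNat, Polynomial.eval_X, Polynomial.eval_one]
        exact poly_mono D.q (hlen z)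
      · simp only [R, decide_eq_true_eq]
        exact fun _ => hv
    · refine ⟨[], by simp, ?_⟩
      simp only [R, decide_eq_true_eq]
      exact fun h => absurd h h4
  · intro n u v hn hu hv
    have h5 := hv.2
    simp only [R, decide_eq_true_eq, un1_pr, un2_pr, ones_length] at h5
    exact h5 ⟨hn, hu⟩

/-- the instance `1^N 0 1^n` with `N = N1 a n` -/
def Zst (a : ℕ → ℕ) (n : ℕ) : List Bool := List.replicate (N1 a n) true ++ false :: ones n

theorem Zst_length (a : ℕ → ℕ) (n : ℕ) : (Zst a n).length = N1 a n + 1 + n := by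
  simp [Zst]; ring

/-- a program for `1^(a(n))` -/
theorem Dat.exists_aT : ∃ aT : Tr → Tr, (∀ {F : Tr → Tr}, FP O F → FP O (fun v => aT (F v))) ∧
    ∀ v, len (aT v) = D.a (len v) := by
  refine ⟨fun v => enc (ones (D.a (dec v).length)), fun hF => FP.fn D.ha hF, fun v => ?_⟩
  rw [len_enc, ones_length, length_dec]

/-- The search problem `Core`, restricted to the lengths in `C`. -/
theorem Dat.exists_S0 (C : ℕ → Prop) (cT : Tr → Tr)
    (hC : ∀ {F : Tr → Tr}, FP O F → FP O (fun v => cT (F v)))
    (hC' : ∀ v, cT v ≠ leaf ↔ C (len v))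
    (htot : ∀ n, C n → ∃ y, D.Core n y) :
    ∃ S : TFNP O, ∀ (n : ℕ) (y : List Bool), C n → S.IsSol (Zst D.a n) y → D.Core n y := by
  classical
  obtain ⟨coreT, hc1, hc2⟩ := D.exists_coreT
  obtain ⟨aT, ha1, ha2⟩ := D.exists_aT
  let R : List Bool → List Bool → Bool := fun z y =>
    decide (C (prs z).2.length ∧ (prs z).1 = N1 D.a (prs z).2.length → D.Core (prs z).2.length y)
  -- the test for the clock
  have hN : ∀ X N : Tr, sqT (node leaf (node leaf X)) (lamT (aT X)) N ≠ leaf ↔
      len N = N1 D.a (len X) := by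
    intro X N
    rw [sqT_spec, lamT_eq, len_num, ha2, N1]
    exact ⟨fun h => h.symm, fun h => h.symm⟩
  have hR : PolyTimeRel O R := by
    have h1 : FP O (fun v => fst v) := FP.fst' FP.id'
    have h2 : FP O (fun v => snd v) := FP.snd' FP.id'
    have hn : FP O (fun v => fst (parseT (fst v))) := FP.fst' (FP.parseT' h1)
    have hx : FP O (fun v => fst (snd (parseT (fst v)))) := FP.fst' (FP.snd' (FP.parseT' h1))
    have ho : FP O (fun v => onesPre (fst (snd (parseT (fst v)))) leaf) :=
      FP.onesPre' hx FP.leaf'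
    have h3 : FP O (fun v => cs (andT (cT (fst (snd (parseT (fst v)))))
        (sqT (node leaf (node leaf (fst (snd (parseT (fst v)))))) (lamT (aT (fst (snd (parseT
          (fst v)))))) (fst (parseT (fst v))))) tt
        (coreT (onesPre (fst (snd (parseT (fst v)))) leaf) (fst (parseT (fst v)))
          (norm (snd v)))) :=
      FP.cs' (FP.andT' (hC hx) (FP.sqT' (FP.node' FP.leaf' (FP.node' FP.leaf' hx))
        (FP.lamT' (ha1 hx)) hn)) (FP.const' tt) (hc1 ho hn (FP.norm' h2))
    refine polyTimeRel_of_FP h3 (fun z y => ?_)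
    have e : (R z y = true) = (C (prs z).2.length ∧ (prs z).1 = N1 D.a (prs z).2.length →
      D.Core (prs z).2.length y) := by simp only [R, decide_eq_true_eq]
    rw [e]
    simp only [fst_node, snd_node, snd_parseT, fst_parseT, onesPre_leaf, len_enc, norm_eq, dec_enc]
    by_cases h4 : C (prs z).2.length ∧ (prs z).1 = N1 D.a (prs z).2.length
    · rw [cs_neg _ _ (by
        rw [andT_spec, hC', hN, len_enc, len_num]; exact h4)]
      have h5 := hc2 (prs z).2.length (num (prs z).1) y (by rw [len_num]; exact h4.2)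
      rw [show List.replicate (prs z).2.length true = ones (prs z).2.length from rfl, h5]
      exact ⟨fun h _ => h, fun h => h h4⟩
    · rw [cs_pos _ _ (by
        by_contra h5
        rw [← ne_eq, andT_spec, hC', hN, len_enc, len_num] at h5
        exact h4 h5)]
      simp [h4]
  refine ⟨⟨R, D.cB, hR, fun z => ?_⟩, ?_⟩
  · by_cases h4 : C (prs z).2.length ∧ (prs z).1 = N1 D.a (prs z).2.length
    · obtain ⟨y, hy⟩ := htot _ h4.1
      refine ⟨y, D.core_length hy ?_, ?_⟩
      · rw [← h4.2]
        have := prs_le z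
        omega
      · simp only [R, decide_eq_true_eq]
        exact fun _ => hy
    · refine ⟨[], by simp, ?_⟩
      simp only [R, decide_eq_true_eq]
      exact fun h => absurd h h4
  · intro n y hn hy
    have h5 := hy.2
    simp only [R, decide_eq_true_eq, Zst, prs_ones, ones_length] at h5
    exact h5 ⟨hn, trivial⟩

end Pool.Agent.H69.NL
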