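import Pool.Agent.H69.NL.Defs

set_option autoImplicit false

/-!
# Running numbered programs with a clock, and strings coding lists of numbers
-/

namespace Pool.Agent.H69.NL

open Pool.Agent.H88.RO Pool.Agent.H88.RO.Tr Pool.Agent.H65.TS Pool.Agent.H65.NU

variable {O : List Bool → Bool}

/-- the string computed by program number `i` from `v` with clock `K` -/
def run (O : List Bool → Bool) (i : ℕ) (v : Tr) (K : ℕ) : List Bool :=
  dec (snd (U O (mach i) v K))

theorem run_length (i : ℕ) (v : Tr) (K : ℕ) : (run O i v K).length ≤ K := length_dec_U O _ v K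

/-- program for `run` -/
def runT (O : List Bool → Bool) (i v K : Tr) : Tr := norm (snd (U O (machT i) v (len K)))

theorem runT_eq (i v K : Tr) : runT O i v K = enc (run O (len i) v (len K)) := by
  rw [runT, norm_eq, run, machT_eq]

theorem FP.runT' {F G H : Tr → Tr} (hF : FP O F) (hG : FP O G) (hH : FP O H) :
    FP O (fun v => runT O (F v) (G v) (H v)) :=
  FP.norm' (FP.snd' (FP.U' (FP.machT' hF) hG hH))

/-- every function computable in polynomial time is computed by a numbered program -/
theorem exists_run {f : List Bool → List Bool} (hf : PolyTimeFun O f) :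
    ∃ (i : ℕ) (k : Polynomial ℕ), ∀ (x : List Bool) (K : ℕ), k.eval x.length ≤ K →
      run O i (enc x) K = f x := by
  obtain ⟨c, q, hc⟩ := hf
  refine ⟨sval (rpn (code c)), Polynomial.C (size (code c) + 10) * q + 10, fun x K hK => ?_⟩
  obtain ⟨t, ht, he⟩ := hc x
  rw [run, mach_sval, U_eq he, snd_node, dec_enc]
  refine le_trans ?_ hK
  simp only [Polynomial.eval_add, Polynomial.eval_mul, Polynomial.eval_C, Polynomial.eval_ofNat]
  exact Nat.add_le_add_right (Nat.mul_le_mul_left _ ht) _

/-- the same for functions of two arguments -/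
theorem exists_run₂ {g : List Bool → List Bool → List Bool} (hg : PolyTimeFun₂ O g) :
    ∃ (i : ℕ) (k : Polynomial ℕ), ∀ (x y : List Bool) (K : ℕ), k.eval (x.length + y.length) ≤ K →
      run O i (node (enc x) (enc y)) K = g x y := by
  obtain ⟨c, q, hc⟩ := hg
  refine ⟨sval (rpn (code c)), Polynomial.C (size (code c) + 10) * q + 10, fun x y K hK => ?_⟩
  obtain ⟨t, ht, he⟩ := hc x y
  rw [run, mach_sval, U_eq he, snd_node, dec_enc]
  refine le_trans ?_ hK
  simp only [Polynomial.eval_add, Polynomial.eval_mul, Polynomial.eval_C, Polynomial.eval_ofNat]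
  exact Nat.add_le_add_right (Nat.mul_le_mul_left _ ht) _

/-! ### lists of numbers -/

/-- the string `1^k₀ 0 1^k₁ 0 ...` -/
def mk : List ℕ → List Bool
  | [] => []
  | k :: l => List.replicate k true ++ false :: mk l

/-- the number `k_j` of a string `1^k₀ 0 1^k₁ 0 ...` -/
def blk (j : ℕ) (s : List Bool) : ℕ := (prs ((fun t => (prs t).2)^[j] s)).1

theorem blk_zero (k : ℕ) (l : List ℕ) : blk 0 (mk (k :: l)) = k := by
  simp [blk, mk, prs_ones]

theorem blk_succ (j k : ℕ) (l : List ℕ) : blk (j + 1) (mk (k :: l)) = blk j (mk l) := by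
  simp [blk, mk, prs_ones]

/-- program for `blk` -/
def blkT (j : ℕ) (s : Tr) : Tr := fst (parseT ((fun t => fst (snd (parseT t)))^[j] s))

theorem blkT_enc (j : ℕ) (s : List Bool) : blkT j (enc s) = num (blk j s) := by
  have h : ∀ j, ∀ s : List Bool, (fun t => fst (snd (parseT t)))^[j] (enc s) =
      enc ((fun t => (prs t).2)^[j] s) := by
    intro j
    induction j with
    | zero => intro s; rfl
    | succ j ih =>
      intro s
      rw [Function.iterate_succ_apply, Function.iterate_succ_apply, snd_parseT, ih]
  rw [blkT, h, fst_parseT, blk]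

theorem FP.blkT' (j : ℕ) {F : Tr → Tr} (hF : FP O F) : FP O (fun v => blkT j (F v)) := by
  have h : ∀ j, ∀ {F : Tr → Tr}, FP O F →
      FP O (fun v => (fun t => fst (snd (parseT t)))^[j] (F v)) := by
    intro j
    induction j with
    | zero => intro F hF; exact hF
    | succ j ih =>
      intro F hF
      simp only [Function.iterate_succ_apply]
      exact ih (FP.fst' (FP.snd' (FP.parseT' hF)))
  exact FP.fst' (FP.parseT' (h j hF))

end Pool.Agent.H69.NL
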