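import Pool.Agent.H69.NL.Enum
import Pool.Agent.H69.NL.Run

set_option autoImplicit false

/-!
# The universal set of strings `1^n` with marked length `n`
-/

namespace Pool.Agent.H69.NL

open Pool.Agent.H88.RO Pool.Agent.H88.RO.Tr Pool.Agent.H65.TS Pool.Agent.H65.NU
open Pool.Agent.H40.EL (U_mono andT andT_spec FP.andT' exists_pow_bound' lam lam_bounds)

variable {O : List Bool → Bool} {d : ℕ → Bool} {a : ℕ → ℕ}

theorem prs_eq_length (x : List Bool) : (prs x).1 = x.length ↔ x = ones x.length := by
  unfold prs ones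
  rcases h : parse x with _ | ⟨m, v⟩
  · simp only [true_iff]
    induction x with
    | nil => rfl
    | cons b x ih =>
      cases b with
      | false => simp [parse] at h
      | true =>
        simp only [parse, Option.map_eq_none_iff] at h
        rw [List.length_cons, List.replicate_succ, ← ih h]
  · have h1 := parse_some h
    simp only
    constructor
    · intro h2
      rw [h1] at h2
      simp at h2
    · intro h2
      exfalso
      rw [h1] at h2
      have h3 : false ∈ List.replicate (List.replicate m true ++ false :: v).length true := by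
        rw [← h2]; simp
      rw [List.mem_replicate] at h3
      exact absurd h3.2 (by simp)

/-- The relation of the universal set: `x = 1^n` with `n` marked, the witness is `1^K 0 w`, and
the program whose number is the first number in the key of `n` accepts `(x, w)` with clock `K`. -/
def RU (O : List Bool → Bool) (d : ℕ → Bool) (x y : List Bool) : Bool :=
  decide (x = ones x.length ∧ d x.length = true ∧
    snd (U O (mach (blk 0 (key d x.length))) (node (enc x) (enc (prs y).2)) (prs y).1) ≠ leaf)

theorem polyTime_RU (hd : PolyTimeFun O (fun x => [d x.length])) : PolyTimeRel O (RU O d) := by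
  have h1 : FP O (fun v => fst v) := FP.fst' FP.id'
  have h2 : FP O (fun v => snd v) := FP.snd' FP.id'
  have h3 : FP O (fun v => andT (eqL (fst (parseT (fst v))) (fst v)) (andT (bit (d (len (fst v))))
      (snd (U O (machT (blkT 0 (enc (key d (len (fst v))))))
        (node (fst v) (fst (snd (parseT (snd v))))) (len (fst (parseT (snd v)))))))) :=
    FP.andT' (FP.eqL' (FP.fst' (FP.parseT' h1)) h1) (FP.andT' (FP.mark hd h1)
      (FP.snd' (FP.U' (FP.machT' (FP.blkT' 0 (FP_key hd h1)))
        (FP.node' h1 (FP.fst' (FP.snd' (FP.parseT' h2)))) (FP.fst' (FP.parseT' h2)))))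
  refine polyTimeRel_of_FP h3 (fun x y => ?_)
  rw [RU, decide_eq_true_eq, andT_spec, andT_spec, eqL_spec, fst_node, snd_node, fst_parseT,
    len_num, len_enc, prs_eq_length, bit_ne_leaf, machT_eq, blkT_enc, len_num, snd_parseT,
    fst_parseT, len_num]

/-- the universal set -/
def LU (O : List Bool → Bool) (d : ℕ → Bool) (a : ℕ → ℕ) : Set (List Bool) :=
  {x | ∃ y : List Bool, y.length ≤ (x.length + 2) ^ a x.length ∧ RU O d x y = true}

theorem LU_tally : TallyAt d (LU O d a) := by
  rintro x ⟨y, _, h⟩
  rw [RU, decide_eq_true_eq] at h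
  exact ⟨x.length, h.2.1, h.1⟩

theorem LU_inNTime (hd : PolyTimeFun O (fun x => [d x.length])) : InNTime O a (LU O d a) :=
  ⟨RU O d, polyTime_RU hd, fun _ => Iff.rfl⟩

theorem two_pow_ge (β : ℕ) (h : 4 ≤ β) : 3 * β + 1 ≤ 2 ^ β := by
  induction β, h using Nat.le_induction with
  | base => norm_num
  | succ n hn ih =>
    rw [pow_succ]
    omega

/-- the exponents: `β` with `2 ^ (3 β) ≤ a` -/
theorem lam_cube {m : ℕ} (h : 4 ≤ lam m) : 2 ^ (3 * lam m) ≤ m := by
  have h1 := (lam_bounds m).1
  have h2 := two_pow_ge (lam m) h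
  have h3 : 2 ^ (3 * lam m + 1) ≤ 2 ^ 2 ^ lam m := Nat.pow_le_pow_right (by norm_num) h2
  have h4 : 2 ^ (3 * lam m + 1) = 2 * 2 ^ (3 * lam m) := by rw [pow_succ]; ring
  have h5 : 2 ^ 1 ≤ 2 ^ (3 * lam m) := Nat.pow_le_pow_right (by norm_num) (by omega)
  omega

/-- the clock `(n + 2) ^ (2 ^ (2 β))` with `β = lam (a n)` -/
def N2 (a : ℕ → ℕ) (n : ℕ) : ℕ := (n + 2) ^ (2 ^ (2 * lam (a n)))

/-- the clock `(n + 2) ^ (2 ^ β)` with `β = lam (a n)` -/
def N1 (a : ℕ → ℕ) (n : ℕ) : ℕ := (n + 2) ^ (2 ^ lam (a n))

/-- A program of polynomial cost which accepts only witnesses of length polynomial in `N2`: at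
lengths `n` where it is named by the key, it decides membership of `1^n` in the universal set. -/
theorem LU_iff {V : Tr → Tr} (hV : FP O V) (P : Polynomial ℕ) (d : ℕ → Bool) (a : ℕ → ℕ) :
    ∃ e c : ℕ, ∀ n, d n = true → blk 0 (key d n) = e → c ≤ lam (a n) →
      (∀ w : List Bool, V (node (enc (ones n)) (enc w)) ≠ leaf →
        w.length ≤ P.eval (N2 a n)) →
      (ones n ∈ LU O d a ↔ ∃ w : List Bool, V (node (enc (ones n)) (enc w)) ≠ leaf) := by
  obtain ⟨cV, q, hc⟩ := hV
  -- the size of the witness
  let W : Polynomial ℕ := Polynomial.C (size (code cV) + 10) *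
    q.comp (4 * Polynomial.X + 4 * P + 3) + 11 + P
  obtain ⟨D, hD⟩ := exists_pow_bound' W
  refine ⟨sval (rpn (code cV)), 2 * D + 4, fun n hn he hcl hlen => ?_⟩
  have hmem : ∀ y : List Bool, RU O d (ones n) y = true ↔
      snd (U O (code cV) (node (enc (ones n)) (enc (prs y).2)) (prs y).1) ≠ leaf := by
    intro y
    rw [RU, decide_eq_true_eq, ones_length, he, mach_sval]
    exact ⟨fun h => h.2.2, fun h => ⟨rfl, hn, h⟩⟩
  constructor
  · rintro ⟨y, _, hy⟩
    rw [hmem] at hy
    refine ⟨(prs y).2, ?_⟩
    rcases U_cases (O := O) (code cV) (node (enc (ones n)) (enc (prs y).2)) (prs y).1 with h | ⟨r, h⟩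
    · rw [h] at hy
      exact absurd rfl hy
    · obtain ⟨t, _, ht⟩ := hc (node (enc (ones n)) (enc (prs y).2))
      have h1 := U_mono (le_max_left (prs y).1 ((size (code cV) + 10) * t + 10)) h
      have h2 := U_eq ht (le_max_right (prs y).1 ((size (code cV) + 10) * t + 10))
      rw [h1] at h2
      injection h2 with _ h3
      rw [h] at hy
      rw [← h3]
      exact hy
  · rintro ⟨w, hw⟩
    obtain ⟨t, ht, het⟩ := hc (node (enc (ones n)) (enc w))
    have hwl := hlen w hw
    refine ⟨List.replicate ((size (code cV) + 10) * t + 10) true ++ false :: w, ?_, ?_⟩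
    · have hm : 2 ≤ N2 a n := by
        unfold N2
        calc 2 ≤ n + 2 := by omega
          _ = (n + 2) ^ 1 := (pow_one _).symm
          _ ≤ _ := Nat.pow_le_pow_right (by omega) (Nat.one_le_two_pow)
      have hnm : n ≤ N2 a n := by
        unfold N2
        calc n ≤ n + 2 := by omega
          _ = (n + 2) ^ 1 := (pow_one _).symm
          _ ≤ _ := Nat.pow_le_pow_right (by omega) (Nat.one_le_two_pow)
      have h1 : size (node (enc (ones n)) (enc w)) ≤ 4 * N2 a n + 4 * P.eval (N2 a n) + 3 := by
        have h2 := size_enc_le (ones n)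
        have h3 := size_enc_le w
        rw [ones_length] at h2
        simp only [size]
        omega
      have h4 : t ≤ q.eval (4 * N2 a n + 4 * P.eval (N2 a n) + 3) := ht.trans (poly_mono q h1)
      have h5 : (size (code cV) + 10) * t + 10 + (w.length + 1) ≤ W.eval (N2 a n) := by
        have h6 := Nat.mul_le_mul_left (size (code cV) + 10) h4
        simp only [W, Polynomial.eval_add, Polynomial.eval_mul, Polynomial.eval_C,
          Polynomial.eval_comp, Polynomial.eval_ofNat, Polynomial.eval_X]
        omega
      have h7 : W.eval (N2 a n) ≤ (N2 a n + 2) ^ D := hD D le_rfl _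
      have h8 : (N2 a n + 2) ^ D ≤ (n + 2) ^ a n := by
        calc (N2 a n + 2) ^ D ≤ (N2 a n ^ 2) ^ D := Nat.pow_le_pow_left (by nlinarith) D
          _ = (n + 2) ^ (2 ^ (2 * lam (a n)) * (2 * D)) := by
              unfold N2
              rw [← pow_mul, ← pow_mul]
          _ ≤ (n + 2) ^ (2 ^ (3 * lam (a n))) := by
              apply Nat.pow_le_pow_right (by omega)
              have h9 : 2 * D ≤ 2 ^ lam (a n) := by
                have := Nat.lt_two_pow_self (n := lam (a n))
                omega
              calc 2 ^ (2 * lam (a n)) * (2 * D) ≤ 2 ^ (2 * lam (a n)) * 2 ^ lam (a n) :=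
                    Nat.mul_le_mul_left _ h9
                _ = 2 ^ (3 * lam (a n)) := by rw [← pow_add]; congr 1; ring
          _ ≤ (n + 2) ^ a n := Nat.pow_le_pow_right (by omega) (lam_cube (by omega))
      rw [List.length_append, List.length_replicate, List.length_cons, ones_length]
      omega
    · rw [hmem, prs_ones, U_eq het le_rfl, snd_node]
      exact hw

end Pool.Agent.H69.NL
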